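import Pool.Agent.Lib.MP_3e612f_nt.NF.C.Defs
import Pool.Agent.Lib.MP_3e612f_nt.MR.Main

/-! The base of the induction: Matomäki - Radziwiłł (paper, FC). -/

set_option autoImplicit false

namespace Pool.Agent.Lib.MP_3e612f_nt.NF

open Finset
open Pool.Agent.Lib.MP_3e612f_nt.MR (mu ex)

/-- A sum over `[0, k L + r)` in blocks of length `L`. -/
private theorem blocks (f : ℕ → ℝ) (hf : ∀ h, |f h| ≤ 1) (L k r : ℕ) :
    |∑ h ∈ range (k * L + r), f h| ≤ ∑ i ∈ range k, |∑ h ∈ range L, f (i * L + h)| + r := by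
  have h1 : ∀ k : ℕ, |∑ h ∈ range (k * L), f h| ≤
      ∑ i ∈ range k, |∑ h ∈ range L, f (i * L + h)| := by
    intro k
    induction k with
    | zero => simp
    | succ k ih =>
      rw [Nat.succ_mul, Finset.sum_range_add, Finset.sum_range_succ]
      exact (abs_add_le _ _).trans (add_le_add ih le_rfl)
  rw [Finset.sum_range_add]
  refine (abs_add_le _ _).trans (add_le_add (h1 k) ?_)
  refine (Finset.abs_sum_le_sum_abs _ _).trans ?_
  refine (Finset.sum_le_sum fun h _ => hf _).trans ?_
  rw [Finset.sum_const, card_range, nsmul_eq_mul, mul_one]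

private theorem abs_mu_le (n : ℕ) : |mu n| ≤ 1 := by
  unfold mu
  have := ArithmeticFunction.abs_moebius_le_one (n := n)
  exact_mod_cast this

/-- The sum over a window `[0,z)`, `z ≤ I L`, in the class of `u`. -/
private theorem prefix_le (q : ℕ) [NeZero q] (L I n u z : ℕ) (hL : 0 < L) (hz : z ≤ I * L) :
    |∑ h ∈ range z, (if h % q = u % q then mu (n + h) else 0)| ≤
      ∑ i ∈ range I, ∑ a : ZMod q, |∑ h ∈ range L,
        (if (((n + i * L + h : ℕ)) : ZMod q) = a then mu (n + i * L + h) else 0)| + L := by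
  have h0 := blocks (fun h => if h % q = u % q then mu (n + h) else 0) (by
    intro h
    split_ifs
    · exact abs_mu_le _
    · simp) L (z / L) (z % L)
  rw [mul_comm (z / L) L, Nat.div_add_mod] at h0
  refine h0.trans (add_le_add ?_ (by exact_mod_cast (Nat.mod_lt _ hL).le))
  have h1 : z / L ≤ I := by
    rw [Nat.div_le_iff_le_mul_add_pred hL]
    rw [mul_comm] at hz
    omega
  refine (Finset.sum_le_sum_of_subset_of_nonneg (Finset.range_subset_range.2 h1)
    (fun i _ _ => abs_nonneg _)).trans ?_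
  refine Finset.sum_le_sum fun i _ => ?_
  have h2 : |∑ h ∈ range L, (fun h => if h % q = u % q then mu (n + h) else 0) (i * L + h)| =
      |∑ h ∈ range L, (if (((n + i * L + h : ℕ)) : ZMod q) = (((n + u : ℕ)) : ZMod q) then
        mu (n + i * L + h) else 0)| := by
    congr 1
    refine Finset.sum_congr rfl fun h _ => ?_
    have h3 : (i * L + h) % q = u % q ↔
        (((n + i * L + h : ℕ)) : ZMod q) = (((n + u : ℕ)) : ZMod q) := by
      rw [← ZMod.natCast_eq_natCast_iff']
      push_cast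
      rw [add_assoc, add_right_inj]
    simp only [h3, ← add_assoc]
  rw [h2]
  exact Finset.single_le_sum (f := fun a : ZMod q => |∑ h ∈ range L,
        (if (((n + i * L + h : ℕ)) : ZMod q) = a then mu (n + i * L + h) else 0)|)
    (fun a _ => abs_nonneg _) (Finset.mem_univ _)

/-- `E = ∅`: `phs = 0`, `ex 0 = 1`. Subwindows `[iL, (i+1)L)`, `L = H/I + 1`, `I ≥ 8/ε`: `[x,y)` is a union of at most `I + 1` full subwindows and a set of at most `2L` elements. For every `i ≤ I` and every class `a : ZMod q`: `∑_{n<N} |∑_{h ∈ [iL,(i+1)L), n+h ≡ a} μ(n+h)| ≤ ε' L (N + H + 1)` by `MR.mr q` (window length `L`, `X = N + iL`),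
and the class of `n + h` is that of `n + u n` (sum over all classes `a`). -/
theorem me_empty (Q : ℕ → Polynomial ℤ) : ME ∅ Q := by
  intro q hq ε hε
  have : NeZero q := ⟨by omega⟩
  have hq0 : (0 : ℝ) < q := by exact_mod_cast hq
  obtain ⟨h₀, hmr⟩ := MR.mr q (ε / (16 * q)) (by positivity)
  obtain ⟨I, hI1, hI⟩ : ∃ I : ℕ, 1 ≤ I ∧ 16 / ε ≤ I :=
    ⟨⌈16 / ε⌉₊ + 1, by omega, (Nat.le_ceil _).trans (by exact_mod_cast Nat.le_succ _)⟩
  have hI0 : (0 : ℝ) < I := by exact_mod_cast hI1
  refine ⟨max (I * h₀) I, fun H hH => ?_⟩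
  have hH1 : I * h₀ ≤ H := (le_max_left _ _).trans hH
  have hH2 : I ≤ H := (le_max_right _ _).trans hH
  obtain ⟨L, hLdef⟩ : ∃ L : ℕ, L = H / I + 1 := ⟨_, rfl⟩
  have hL0 : 0 < L := by
    rw [hLdef]
    exact Nat.succ_pos _
  have hLh : h₀ ≤ L := by
    have : h₀ ≤ H / I := by
      rw [Nat.le_div_iff_mul_le hI1, mul_comm]
      exact hH1
    rw [hLdef]
    exact Nat.le_succ_of_le this
  have hIL : H + 1 ≤ I * L := by
    rw [hLdef]
    exact Nat.lt_mul_div_succ H hI1
  have hIL2 : I * L ≤ 2 * H := by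
    have := Nat.div_mul_le_self H I
    have e1 : I * L = H / I * I + I := by
      rw [hLdef]
      ring
    omega
  obtain ⟨X₀, hX⟩ := hmr L hLh
  refine ⟨max X₀ (I * L), fun N hN α x y u hy => ?_⟩
  have hN1 : X₀ ≤ N := (le_max_left _ _).trans hN
  have hN2 : I * L ≤ N := (le_max_right _ _).trans hN
  -- one n
  have hone : ∀ n : ℕ, ‖∑ h ∈ win q (x n) (y n) (u n), (mu (n + h) : ℂ) * ex (phs ∅ Q (α n) h)‖ ≤
      2 * (∑ i ∈ range I, ∑ a : ZMod q, |∑ h ∈ range L,
        (if (((n + i * L + h : ℕ)) : ZMod q) = a then mu (n + i * L + h) else 0)| + L) := by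
    intro n
    have h1 : ∑ h ∈ win q (x n) (y n) (u n), (mu (n + h) : ℂ) * ex (phs ∅ Q (α n) h) =
        ((∑ h ∈ win q (x n) (y n) (u n), mu (n + h) : ℝ) : ℂ) := by
      rw [Complex.ofReal_sum]
      refine Finset.sum_congr rfl fun h _ => ?_
      have h2 : ex (phs ∅ Q (α n) h) = 1 := by
        simp [phs, ex]
      rw [h2, mul_one]
    rw [h1, Complex.norm_real, Real.norm_eq_abs]
    unfold win
    rw [Finset.sum_filter]
    have hnn : 0 ≤ ∑ i ∈ range I, ∑ a : ZMod q, |∑ h ∈ range L,
        (if (((n + i * L + h : ℕ)) : ZMod q) = a then mu (n + i * L + h) else 0)| + (L : ℝ) := by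
      positivity
    rcases le_total (y n) (x n) with h3 | h3
    · rw [Finset.Ico_eq_empty (by omega), Finset.sum_empty, abs_zero]
      positivity
    · rw [Finset.sum_Ico_eq_sub _ h3]
      have e1 := prefix_le q L I n (u n) (y n) hL0 ((hy n).trans hIL)
      have e2 := prefix_le q L I n (u n) (x n) hL0 ((h3.trans (hy n)).trans hIL)
      refine (abs_sub _ _).trans ?_
      linarith
  refine (Finset.sum_le_sum fun n _ => hone n).trans ?_
  rw [← Finset.mul_sum, Finset.sum_add_distrib, Finset.sum_const, card_range, nsmul_eq_mul,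
    Finset.sum_comm]
  -- one i, one a
  have hia : ∀ i ∈ range I, ∑ n ∈ range N, ∑ a : ZMod q, |∑ h ∈ range L,
        (if (((n + i * L + h : ℕ)) : ZMod q) = a then mu (n + i * L + h) else 0)| ≤
      q * (ε / (16 * q) * L * (2 * N)) := by
    intro i hi
    rw [mem_range] at hi
    rw [Finset.sum_comm]
    refine (Finset.sum_le_card_nsmul _ _ (ε / (16 * q) * L * (2 * N)) ?_).trans (le_of_eq ?_)
    · intro a _
      have hiL : i * L ≤ N := (Nat.mul_le_mul_right L hi.le).trans hN2
      have h1 : ∑ x ∈ range (i * L + N), |∑ n ∈ range L,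
          (if (((x + n : ℕ)) : ZMod q) = a then mu (x + n) else 0)| ≤
          ε / (16 * q) * L * ((i * L + N : ℕ) : ℝ) :=
        hX (i * L + N) (hN1.trans (Nat.le_add_left _ _)) a
      rw [Finset.sum_range_add] at h1
      have h2 : (0 : ℝ) ≤ ∑ x ∈ range (i * L), |∑ n ∈ range L,
          (if (((x + n : ℕ)) : ZMod q) = a then mu (x + n) else 0)| := by positivity
      have h3 : ∑ n ∈ range N, |∑ h ∈ range L,
        (if (((n + i * L + h : ℕ)) : ZMod q) = a then mu (n + i * L + h) else 0)| =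
        ∑ x ∈ range N, |∑ n ∈ range L,
        (if (((i * L + x + n : ℕ)) : ZMod q) = a then mu (i * L + x + n) else 0)| := by
        refine Finset.sum_congr rfl fun n _ => ?_
        rw [add_comm n (i * L)]
      rw [h3]
      have h4 : ε / (16 * q) * L * ((i * L + N : ℕ) : ℝ) ≤ ε / (16 * q) * L * (2 * N) := by
        apply mul_le_mul_of_nonneg_left _ (by positivity)
        have : i * L + N ≤ 2 * N := by omega
        exact_mod_cast this
      linarith
    · rw [Finset.card_univ, ZMod.card, nsmul_eq_mul]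
  have h5 := Finset.sum_le_sum hia
  rw [Finset.sum_const, card_range, nsmul_eq_mul] at h5
  have h6 : (I : ℝ) * L ≤ 2 * H := by exact_mod_cast hIL2
  have h7 : (I : ℝ) * (q * (ε / (16 * q) * L * (2 * N))) ≤ ε / 4 * H * N := by
    have e1 : (I : ℝ) * (q * (ε / (16 * q) * L * (2 * N))) = ε / 8 * N * (I * L) := by
      field_simp
      ring
    rw [e1]
    have := mul_le_mul_of_nonneg_left h6 (show 0 ≤ ε / 8 * (N : ℝ) by positivity)
    linarith
  have h8 : (N : ℝ) * L ≤ ε / 8 * H * N := by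
    have e1 : (L : ℝ) ≤ ε / 8 * H := by
      have e2 : 16 ≤ I * ε := by
        rw [div_le_iff₀ hε] at hI
        exact hI
      have e3 : 16 * (L : ℝ) ≤ ε * (2 * H) := by
        calc 16 * (L : ℝ) ≤ (I * ε) * L := mul_le_mul_of_nonneg_right e2 (Nat.cast_nonneg _)
          _ = ε * (I * L) := by ring
          _ ≤ ε * (2 * H) := mul_le_mul_of_nonneg_left h6 hε.le
      linarith
    have := mul_le_mul_of_nonneg_left e1 (Nat.cast_nonneg (α := ℝ) N)
    linarith
  have h9 : (0 : ℝ) ≤ ε * H * N := by positivity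
  linarith

end Pool.Agent.Lib.MP_3e612f_nt.NF
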