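import Pool.Agent.Lib.MP_3e612f_nt.NF.C.Defs

/-! The two top coefficients of a difference of translates (paper, FC). -/

set_option autoImplicit false

namespace Pool.Agent.Lib.MP_3e612f_nt.NF

open Finset
open Pool.Agent.Lib.MP_3e612f_nt.MR (mu ex)

/-- `P(v + q X)` -/
noncomputable def trl (P : Polynomial ℤ) (v q : ℕ) : Polynomial ℝ :=
  (Polynomial.taylor (v : ℝ) (P.map (Int.castRingHom ℝ))).comp (Polynomial.C (q : ℝ) * Polynomial.X)

theorem trl_coeff (P : Polynomial ℤ) (v q n : ℕ) :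
    (trl P v q).coeff n =
      (Polynomial.taylor (v : ℝ) (P.map (Int.castRingHom ℝ))).coeff n * (q : ℝ) ^ n := by
  unfold trl
  rw [Polynomial.comp_C_mul_X_coeff]

theorem trl_eval (P : Polynomial ℤ) (v q j : ℕ) :
    (trl P v q).eval (j : ℝ) = (((P.eval ((v + q * j : ℕ) : ℤ) : ℤ)) : ℝ) := by
  unfold trl
  rw [Polynomial.eval_comp, Polynomial.taylor_eval, Polynomial.eval_mul, Polynomial.eval_C,
    Polynomial.eval_X]
  have h : (q : ℝ) * j + v = (((v + q * j : ℕ) : ℤ) : ℝ) := by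
    push_cast
    ring
  rw [h, Polynomial.eval_intCast_map]
  rfl

theorem trl_natDegree (P : Polynomial ℤ) (v q t : ℕ) (hP : P.natDegree ≤ t) {n : ℕ} (hn : t < n) :
    (trl P v q).coeff n = 0 := by
  rw [trl_coeff, Polynomial.coeff_eq_zero_of_natDegree_lt, zero_mul]
  rw [Polynomial.natDegree_taylor]
  exact lt_of_le_of_lt (Polynomial.natDegree_map_le.trans hP) hn

theorem trl_coeff_top (P : Polynomial ℤ) (v q t : ℕ) (hP : P.natDegree ≤ t) :
    (trl P v q).coeff t = (q : ℝ) ^ t * (P.coeff t : ℝ) := by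
  rw [trl_coeff, Polynomial.taylor_coeff]
  have h1 : (Polynomial.hasseDeriv t (P.map (Int.castRingHom ℝ))).natDegree ≤ 0 := by
    refine (Polynomial.natDegree_hasseDeriv_le _ t).trans ?_
    have := (Polynomial.natDegree_map_le (f := Int.castRingHom ℝ) (p := P)).trans hP
    omega
  rw [Polynomial.eq_C_of_natDegree_le_zero h1, Polynomial.eval_C, Polynomial.hasseDeriv_coeff]
  simp only [zero_add, Nat.choose_self, Nat.cast_one, one_mul, Polynomial.coeff_map,
    Int.coe_castRingHom]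
  ring

theorem trl_coeff_next (P : Polynomial ℤ) (v q t : ℕ) (hP : P.natDegree ≤ t + 1) :
    (trl P v q).coeff t =
      (q : ℝ) ^ t * (((t + 1 : ℕ) : ℝ) * (P.coeff (t + 1) : ℝ) * v + (P.coeff t : ℝ)) := by
  rw [trl_coeff, Polynomial.taylor_coeff]
  have h1 : (Polynomial.hasseDeriv t (P.map (Int.castRingHom ℝ))).natDegree ≤ 1 := by
    refine (Polynomial.natDegree_hasseDeriv_le _ t).trans ?_
    have := (Polynomial.natDegree_map_le (f := Int.castRingHom ℝ) (p := P)).trans hP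
    omega
  rw [Polynomial.eq_X_add_C_of_natDegree_le_one h1, Polynomial.hasseDeriv_coeff,
    Polynomial.hasseDeriv_coeff]
  have h4 : (((t + 1).choose t : ℕ) : ℝ) = ((t + 1 : ℕ) : ℝ) := by
    rw [Nat.choose_succ_self_right]
  rw [add_comm 1 t]
  simp only [Polynomial.eval_add, Polynomial.eval_mul, Polynomial.eval_C, Polynomial.eval_X,
    zero_add, Nat.choose_self, Nat.cast_one, one_mul, Polynomial.coeff_map,
    Int.coe_castRingHom]
  rw [h4]
  ring

/-- `R(j) = P(v + q j) - P'(w + q j)` for `P = ∑_{i ∈ insert t E} a_i Q_i`, `P'` the same with `b`: the polynomials `Q_i(v + qX)`, `i ∈ E`, have degree at most `t - 2`, `Q_t(v + qX)` has degree at most `t` and coefficients `q^t c`, `q^{t-1}(t c v + c')` where `c, c'` are the two top coefficients of `Q_t`. -/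
theorem diff_coef (E : Finset ℕ) (t : ℕ) (ht : 2 ≤ t) (hE : ∀ j ∈ E, j + 2 ≤ t) (Q : ℕ → Polynomial ℤ) (hQE : ∀ j ∈ E, (Q j).natDegree ≤ j) (hQ : (Q t).natDegree ≤ t)
    (a b : ℕ → ℝ) (v w q : ℕ) :
    ∃ R : Polynomial ℝ, R.natDegree ≤ t ∧ (∀ j : ℕ, R.eval (j : ℝ) = phs (insert t E) Q a (v + q * j) - phs (insert t E) Q b (w + q * j)) ∧
      R.coeff t = (q : ℝ) ^ t * ((Q t).coeff t : ℝ) * (a t - b t) ∧
      R.coeff (t - 1) = (q : ℝ) ^ (t - 1) * (a t * (t * ((Q t).coeff t : ℝ) * v + ((Q t).coeff (t - 1) : ℝ)) - b t * (t * ((Q t).coeff t : ℝ) * w + ((Q t).coeff (t - 1) : ℝ))) := by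
  have htE : t ∉ E := by
    intro h
    have := hE t h
    omega
  have hcoeff : ∀ n, (∑ i ∈ insert t E, (Polynomial.C (a i) * trl (Q i) v q -
      Polynomial.C (b i) * trl (Q i) w q)).coeff n =
      (a t * (trl (Q t) v q).coeff n - b t * (trl (Q t) w q).coeff n) +
        ∑ i ∈ E, (a i * (trl (Q i) v q).coeff n - b i * (trl (Q i) w q).coeff n) := by
    intro n
    rw [Polynomial.finsetSum_coeff, sum_insert htE]
    simp only [Polynomial.coeff_sub, Polynomial.coeff_C_mul]
  have hlow : ∀ n, t - 1 ≤ n → ∑ i ∈ E, (a i * (trl (Q i) v q).coeff n -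
      b i * (trl (Q i) w q).coeff n) = 0 := by
    intro n hn
    refine sum_eq_zero fun i hi => ?_
    have h1 := hE i hi
    rw [trl_natDegree (Q i) v q i (hQE i hi) (by omega),
      trl_natDegree (Q i) w q i (hQE i hi) (by omega)]
    ring
  refine ⟨∑ i ∈ insert t E, (Polynomial.C (a i) * trl (Q i) v q -
      Polynomial.C (b i) * trl (Q i) w q), ?_, ?_, ?_, ?_⟩
  · rw [Polynomial.natDegree_le_iff_coeff_eq_zero]
    intro n hn
    rw [hcoeff, hlow n (by omega), trl_natDegree (Q t) v q t hQ hn,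
      trl_natDegree (Q t) w q t hQ hn]
    ring
  · intro j
    rw [Polynomial.eval_finsetSum]
    unfold phs
    rw [← sum_sub_distrib]
    refine sum_congr rfl fun i _ => ?_
    rw [Polynomial.eval_sub, Polynomial.eval_mul, Polynomial.eval_mul, Polynomial.eval_C,
      Polynomial.eval_C, trl_eval, trl_eval]
  · rw [hcoeff, hlow t (by omega), trl_coeff_top (Q t) v q t hQ, trl_coeff_top (Q t) w q t hQ]
    ring
  · obtain ⟨s, rfl⟩ : ∃ s, t = s + 1 := ⟨t - 1, by omega⟩
    rw [Nat.add_sub_cancel, hcoeff, hlow s (by omega), trl_coeff_next (Q (s + 1)) v q s hQ,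
      trl_coeff_next (Q (s + 1)) w q s hQ]
    push_cast
    ring

end Pool.Agent.Lib.MP_3e612f_nt.NF
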