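import Pool.Agent.Lib.MP_3e612f_nt.NF.Base

/-! Definitions for theorem (C). -/

set_option autoImplicit false

namespace Pool.Agent.Lib.MP_3e612f_nt.NF

open Finset
open Pool.Agent.Lib.MP_3e612f_nt.MR (mu ex)

/-- the phase `∑_{j ∈ E} α_j Q_j(h)` -/
noncomputable def phs (E : Finset ℕ) (Q : ℕ → Polynomial ℤ) (α : ℕ → ℝ) (h : ℕ) : ℝ := ∑ j ∈ E, α j * (((Q j).eval (h : ℤ) : ℤ) : ℝ)

/-- the window: `h ∈ [x, y)`, `h ≡ u (q)` -/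
def win (q x y u : ℕ) : Finset ℕ := (Ico x y).filter (fun h => h % q = u % q)

/-- `a` is close to a rational number with denominator at most `K` at scale `H^t` -/
def Major (K H t : ℕ) (a : ℝ) : Prop := ∃ q : ℕ, 1 ≤ q ∧ q ≤ K ∧ dZ (q * a) ≤ K / (H : ℝ) ^ t

/-- The maximal form of (C) for the exponents `E`. -/
def ME (E : Finset ℕ) (Q : ℕ → Polynomial ℤ) : Prop := ∀ q : ℕ, 1 ≤ q → ∀ ε : ℝ, 0 < ε → ∃ H₀ : ℕ, ∀ H : ℕ, H₀ ≤ H → ∃ N₀ : ℕ, ∀ N : ℕ, N₀ ≤ N →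
  ∀ (α : ℕ → ℕ → ℝ) (x y u : ℕ → ℕ), (∀ n, y n ≤ H + 1) →
    ∑ n ∈ range N, ‖∑ h ∈ win q (x n) (y n) (u n), (mu (n + h) : ℂ) * ex (phs E Q (α n) h)‖ ≤ ε * H * N

end Pool.Agent.Lib.MP_3e612f_nt.NF
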