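import Pool.Agent.Lib.MP_3e612f_nt.NF.C.Defs

/-! Duality (paper, FC). -/

set_option autoImplicit false

namespace Pool.Agent.Lib.MP_3e612f_nt.NF

open Finset
open Pool.Agent.Lib.MP_3e612f_nt.MR (mu ex)

/-- Let `θ_s` be unimodular with `θ_s ⟨f, ψ_s⟩ = |⟨f, ψ_s⟩|`. `ε M |D| ≤ ⟨f, ∑ θ_s ψ_s⟩`, Cauchy - Schwarz: `ε² M² |D|² ≤ M ∑_{s,s'} |⟨ψ_s, ψ_s'⟩|`. So some `s₀` has `∑_s |⟨ψ_s, ψ_{s₀}⟩| ≥ ε² M |D|`, and `|⟨ψ_s, ψ_{s₀}⟩| ≤ M`. -/
theorem duality (M : ℕ) (f : ℕ → ℂ) (hf : ∀ m, ‖f m‖ ≤ 1) (D : Finset ℕ) (hD : D.Nonempty) (ψ : ℕ → ℕ → ℂ) (hψ : ∀ s m, ‖ψ s m‖ ≤ 1) (ε : ℝ) (hε : 0 < ε)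
    (hε1 : ε ≤ 1) (h : ∀ s ∈ D, ε * M ≤ ‖∑ m ∈ range M, f m * ψ s m‖) :
    ∃ s₀ ∈ D, ε ^ 2 / 2 * (D.card : ℝ) ≤ (((D.filter (fun s => ε ^ 2 / 2 * M ≤ ‖∑ m ∈ range M, ψ s m * (starRingEnd ℂ) (ψ s₀ m)‖)).card : ℕ) : ℝ) := by
  have hDc : (0 : ℝ) < D.card := by exact_mod_cast hD.card_pos
  rcases Nat.eq_zero_or_pos M with rfl | hM
  · obtain ⟨s₀, hs₀⟩ := hD
    refine ⟨s₀, hs₀, ?_⟩
    rw [Finset.filter_true_of_mem]
    · have h1 : ε ^ 2 ≤ 1 := pow_le_one₀ hε.le hε1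
      have h2 : ε ^ 2 / 2 ≤ 1 := by linarith
      exact mul_le_of_le_one_left hDc.le h2
    · intro s _
      rw [Nat.cast_zero, mul_zero]
      exact norm_nonneg _
  have hM0 : (0 : ℝ) < M := by exact_mod_cast hM
  have hth : ∀ s, ∃ c : ℂ, ‖c‖ = 1 ∧ ((‖∑ m ∈ range M, f m * ψ s m‖ : ℝ) : ℂ) =
      c * ∑ m ∈ range M, f m * ψ s m := fun s => RCLike.exists_norm_eq_mul_self _
  choose θ hθ1 hθ2 using hth
  obtain ⟨g, hg⟩ : ∃ g : ℕ → ℂ, ∀ m, g m = ∑ s ∈ D, θ s * ψ s m := ⟨_, fun _ => rfl⟩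
  -- lower bound
  have h1 : ε * M * D.card ≤ ∑ m ∈ range M, ‖g m‖ := by
    have h2 : ((∑ s ∈ D, ‖∑ m ∈ range M, f m * ψ s m‖ : ℝ) : ℂ) =
        ∑ m ∈ range M, f m * g m := by
      rw [Complex.ofReal_sum, Finset.sum_congr rfl fun s _ => hθ2 s]
      simp only [hg, Finset.mul_sum]
      rw [Finset.sum_comm]
      refine Finset.sum_congr rfl fun m _ => Finset.sum_congr rfl fun s _ => ?_
      ring
    have h3 : ε * M * D.card ≤ ∑ s ∈ D, ‖∑ m ∈ range M, f m * ψ s m‖ := by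
      have h4 := Finset.card_nsmul_le_sum D _ _ h
      rw [nsmul_eq_mul] at h4
      linarith
    have h5 : ∑ s ∈ D, ‖∑ m ∈ range M, f m * ψ s m‖ = ‖∑ m ∈ range M, f m * g m‖ := by
      rw [← h2, Complex.norm_real, Real.norm_of_nonneg]
      exact Finset.sum_nonneg fun _ _ => norm_nonneg _
    rw [h5] at h3
    refine h3.trans ((norm_sum_le _ _).trans (Finset.sum_le_sum fun m _ => ?_))
    rw [norm_mul]
    exact mul_le_of_le_one_left (norm_nonneg _) (hf m)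
  have h2 : (∑ m ∈ range M, ‖g m‖) ^ 2 ≤ M * ∑ m ∈ range M, ‖g m‖ ^ 2 := by
    have h3 := sq_sum_le_card_mul_sum_sq (s := range M) (f := fun m => ‖g m‖)
    rwa [Finset.card_range] at h3
  -- the double sum
  have h3 : ∑ m ∈ range M, ‖g m‖ ^ 2 ≤
      ∑ s' ∈ D, ∑ s ∈ D, ‖∑ m ∈ range M, ψ s m * (starRingEnd ℂ) (ψ s' m)‖ := by
    have h4 : ((∑ m ∈ range M, ‖g m‖ ^ 2 : ℝ) : ℂ) =
        ∑ s' ∈ D, ∑ s ∈ D, θ s * (starRingEnd ℂ) (θ s') *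
          ∑ m ∈ range M, ψ s m * (starRingEnd ℂ) (ψ s' m) := by
      rw [Complex.ofReal_sum]
      have h5 : ∀ m ∈ range M, ((‖g m‖ ^ 2 : ℝ) : ℂ) = ∑ s' ∈ D, ∑ s ∈ D,
          θ s * (starRingEnd ℂ) (θ s') * (ψ s m * (starRingEnd ℂ) (ψ s' m)) := by
        intro m _
        rw [Complex.ofReal_pow, ← Complex.mul_conj', hg, map_sum, Finset.mul_sum]
        refine Finset.sum_congr rfl fun s' _ => ?_
        rw [Finset.sum_mul]
        refine Finset.sum_congr rfl fun s _ => ?_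
        rw [map_mul]
        ring
      rw [Finset.sum_congr rfl h5, Finset.sum_comm]
      refine Finset.sum_congr rfl fun s' _ => ?_
      rw [Finset.sum_comm]
      refine Finset.sum_congr rfl fun s _ => ?_
      rw [Finset.mul_sum]
    have h6 : ∑ m ∈ range M, ‖g m‖ ^ 2 = ‖((∑ m ∈ range M, ‖g m‖ ^ 2 : ℝ) : ℂ)‖ := by
      rw [Complex.norm_real, Real.norm_of_nonneg]
      exact Finset.sum_nonneg fun _ _ => by positivity
    rw [h6, h4]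
    refine (norm_sum_le _ _).trans (Finset.sum_le_sum fun s' _ => ?_)
    refine (norm_sum_le _ _).trans (Finset.sum_le_sum fun s _ => ?_)
    rw [norm_mul, norm_mul, RCLike.norm_conj, hθ1, hθ1, one_mul, one_mul]
  have h4 : ∑ s' ∈ D, ε ^ 2 * M * D.card ≤
      ∑ s' ∈ D, ∑ s ∈ D, ‖∑ m ∈ range M, ψ s m * (starRingEnd ℂ) (ψ s' m)‖ := by
    rw [Finset.sum_const, nsmul_eq_mul]
    have h5 : (ε * M * D.card) ^ 2 ≤ M *
        ∑ s' ∈ D, ∑ s ∈ D, ‖∑ m ∈ range M, ψ s m * (starRingEnd ℂ) (ψ s' m)‖ := by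
      refine (pow_le_pow_left₀ (by positivity) h1 2).trans (h2.trans ?_)
      exact mul_le_mul_of_nonneg_left h3 hM0.le
    have h6 : (ε * M * D.card) ^ 2 = M * (D.card * (ε ^ 2 * M * D.card)) := by ring
    rw [h6] at h5
    exact le_of_mul_le_mul_left h5 hM0
  obtain ⟨s₀, hs₀, h5⟩ := Finset.exists_le_of_sum_le hD h4
  refine ⟨s₀, hs₀, ?_⟩
  -- few large inner products would give a small sum
  have h6 : ∀ s ∈ D, ‖∑ m ∈ range M, ψ s m * (starRingEnd ℂ) (ψ s₀ m)‖ ≤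
      ε ^ 2 / 2 * M + (if ε ^ 2 / 2 * M ≤
        ‖∑ m ∈ range M, ψ s m * (starRingEnd ℂ) (ψ s₀ m)‖ then (M : ℝ) else 0) := by
    intro s _
    split_ifs with h7
    · have h8 : ‖∑ m ∈ range M, ψ s m * (starRingEnd ℂ) (ψ s₀ m)‖ ≤ M := by
        refine (norm_sum_le _ _).trans ?_
        have h9 : ∀ m ∈ range M, ‖ψ s m * (starRingEnd ℂ) (ψ s₀ m)‖ ≤ 1 := by
          intro m _
          rw [norm_mul, RCLike.norm_conj]
          exact mul_le_one₀ (hψ s m) (norm_nonneg _) (hψ s₀ m)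
        refine (Finset.sum_le_card_nsmul _ _ _ h9).trans ?_
        rw [Finset.card_range, nsmul_eq_mul, mul_one]
      have h10 : 0 ≤ ε ^ 2 / 2 * M := by positivity
      linarith
    · rw [add_zero]
      exact (not_le.1 h7).le
  have h7 := h5.trans (Finset.sum_le_sum h6)
  rw [Finset.sum_add_distrib, Finset.sum_const, nsmul_eq_mul, ← Finset.sum_filter,
    Finset.sum_const, nsmul_eq_mul] at h7
  have h8 : ε ^ 2 / 2 * (D.card : ℝ) * M ≤ ((D.filter (fun s => ε ^ 2 / 2 * M ≤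
      ‖∑ m ∈ range M, ψ s m * (starRingEnd ℂ) (ψ s₀ m)‖)).card : ℝ) * M := by
    linarith
  exact le_of_mul_le_mul_right h8 hM0

end Pool.Agent.Lib.MP_3e612f_nt.NF
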