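import Pool.Agent.Lib.MP_3e612f_nt.NF.C.Defs

/-! Inner products of two translated windows (paper, FC). -/

set_option autoImplicit false

namespace Pool.Agent.Lib.MP_3e612f_nt.NF

open Finset
open Pool.Agent.Lib.MP_3e612f_nt.MR (mu ex)

/-- the translated window function `m ↦ 1[m - s ∈ [x,y), m - s ≡ u (q)] e(P(m - s))` -/
noncomputable def psi (q s x y u : ℕ) (P : ℕ → ℝ) (m : ℕ) : ℂ := if s ≤ m ∧ (m - s) ∈ win q x y u then ex (P (m - s)) else 0

/-- `∑_{m<2H+1} f(m) ψ(m) = ∑_{h ∈ win} f(s+h) e(P h)` (`s < H`, `y ≤ H + 1`). -/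
theorem sum_psi (q s x y u H : ℕ) (hs : s < H) (hy : y ≤ H + 1) (P : ℕ → ℝ) (f : ℕ → ℂ) :
    ∑ m ∈ range (2 * H + 1), f m * psi q s x y u P m = ∑ h ∈ win q x y u, f (s + h) * ex (P h) := by
  classical
  have h1 : ∑ m ∈ range (2 * H + 1), f m * psi q s x y u P m =
      ∑ m ∈ (range (2 * H + 1)).filter (fun m => s ≤ m ∧ (m - s) ∈ win q x y u), f m * ex (P (m - s)) := by
    rw [Finset.sum_filter]
    refine Finset.sum_congr rfl (fun m _ => ?_)
    unfold psi
    split_ifs <;> simp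
  rw [h1]
  refine Finset.sum_nbij' (fun m => m - s) (fun h => s + h) ?_ ?_ ?_ ?_ ?_
  · intro m hm
    exact (Finset.mem_filter.1 hm).2.2
  · intro h hh
    have h2 := hh
    simp only [win, Finset.mem_filter, Finset.mem_Ico] at h2
    simp only [Finset.mem_filter, Finset.mem_range]
    refine ⟨by omega, by omega, ?_⟩
    have e : s + h - s = h := by omega
    rw [e]
    exact hh
  · intro m hm
    have h2 := (Finset.mem_filter.1 hm).2.1
    show s + (m - s) = m
    omega
  · intro h _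
    show s + h - s = h
    omega
  · intro m hm
    have h2 := (Finset.mem_filter.1 hm).2.1
    have e : s + (m - s) = m := by omega
    show f m * ex (P (m - s)) = f (s + (m - s)) * ex (P (m - s))
    rw [e]

/-- The product of two such functions is supported on a progression `m = m₀ + q j`, `j < J`, with `m₀ ≥ s, s'` (or is 0 everywhere: `J = 0`): intersection of two intervals and of two classes modulo `q` (equal or disjoint). -/
theorem psi_mul (q : ℕ) (hq : 1 ≤ q) (s s' x y u x' y' u' H : ℕ) (hs : s < H) (hs' : s' < H) (hy : y ≤ H + 1) (hy' : y' ≤ H + 1) (P P' : ℕ → ℝ) :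
    ∃ m₀ J : ℕ, s ≤ m₀ ∧ s' ≤ m₀ ∧ m₀ ≤ 2 * H + 1 ∧ J ≤ 2 * H + 1 ∧
      ∑ m ∈ range (2 * H + 1), psi q s x y u P m * (starRingEnd ℂ) (psi q s' x' y' u' P' m)
        = ∑ j ∈ range J, ex (P (m₀ - s + q * j) - P' (m₀ - s' + q * j)) := by
  classical
  set C : ℕ → Prop := fun m => (s ≤ m ∧ (m - s) ∈ win q x y u) ∧ (s' ≤ m ∧ (m - s') ∈ win q x' y' u') with hC
  set S : Finset ℕ := (range (2 * H + 1)).filter C with hS
  have h1 : ∑ m ∈ range (2 * H + 1), psi q s x y u P m * (starRingEnd ℂ) (psi q s' x' y' u' P' m) =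
      ∑ m ∈ S, ex (P (m - s) - P' (m - s')) := by
    rw [hS, Finset.sum_filter]
    refine Finset.sum_congr rfl (fun m _ => ?_)
    unfold psi
    by_cases ha : s ≤ m ∧ (m - s) ∈ win q x y u
    · by_cases hb : s' ≤ m ∧ (m - s') ∈ win q x' y' u'
      · rw [if_pos ha, if_pos hb, if_pos (show C m from ⟨ha, hb⟩), ex_sub]
      · rw [if_neg hb, if_neg (fun h : C m => hb h.2), map_zero, mul_zero]
    · rw [if_neg ha, if_neg (fun h : C m => ha h.1), zero_mul]
  have hmem : ∀ m, m ∈ S ↔ (s ≤ m ∧ s' ≤ m ∧ x ≤ m - s ∧ m - s < y ∧ x' ≤ m - s' ∧ m - s' < y' ∧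
      (m - s) % q = u % q ∧ (m - s') % q = u' % q) := by
    intro m
    simp only [hS, hC, win, Finset.mem_filter, Finset.mem_range, Finset.mem_Ico]
    constructor
    · rintro ⟨_, ⟨a1, ⟨a2, a3⟩, a4⟩, a5, ⟨a6, a7⟩, a8⟩
      exact ⟨a1, a5, a2, a3, a6, a7, a4, a8⟩
    · rintro ⟨a1, a5, a2, a3, a6, a7, a4, a8⟩
      exact ⟨by omega, ⟨a1, ⟨a2, a3⟩, a4⟩, a5, ⟨a6, a7⟩, a8⟩
  rw [h1]
  by_cases hne : S.Nonempty
  · set m₀ := S.min' hne with hm₀
    have hm : m₀ ∈ S := Finset.min'_mem S hne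
    obtain ⟨b1, b2, b3, b4, b5, b6, b7, b8⟩ := (hmem m₀).1 hm
    set b : ℕ := min (s + y) (s' + y') with hb
    have hm0b : m₀ < b := by omega
    set J : ℕ := (b - m₀ + (q - 1)) / q with hJ
    have hJj : ∀ j, j < J ↔ m₀ + q * j < b := by
      intro j
      rw [hJ, Nat.lt_iff_add_one_le, Nat.le_div_iff_mul_le (by omega)]
      have e : (j + 1) * q = q * j + q := by ring
      rw [e]
      omega
    refine ⟨m₀, J, b1, b2, by omega, ?_, ?_⟩
    · by_contra hcon
      push Not at hcon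
      have h3 := (hJj (2 * H + 1)).1 hcon
      have h4 : 2 * H + 1 ≤ q * (2 * H + 1) := Nat.le_mul_of_pos_left _ (by omega)
      omega
    · symm
      have hkey : ∀ m, m ∈ S → ∃ j, m = m₀ + q * j := by
        intro m hmS
        have hle : m₀ ≤ m := Finset.min'_le S m hmS
        obtain ⟨c1, c2, c3, c4, c5, c6, c7, c8⟩ := (hmem m).1 hmS
        have h5 : (m₀ - s) ≡ (m - s) [MOD q] := by
          show (m₀ - s) % q = (m - s) % q
          rw [b7, c7]
        have h6 := (Nat.modEq_iff_dvd' (by omega)).1 h5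
        obtain ⟨j, hj⟩ := h6
        exact ⟨j, by omega⟩
      refine Finset.sum_bij (fun j _ => m₀ + q * j) ?_ ?_ ?_ ?_
      · intro j hj
        have h7 := (hJj j).1 (Finset.mem_range.1 hj)
        refine (hmem _).2 ⟨by omega, by omega, by omega, by omega, by omega, by omega, ?_, ?_⟩
        · have e : m₀ + q * j - s = (m₀ - s) + q * j := by omega
          rw [e, Nat.add_mul_mod_self_left, b7]
        · have e : m₀ + q * j - s' = (m₀ - s') + q * j := by omega
          rw [e, Nat.add_mul_mod_self_left, b8]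
      · intro j _ j' _ h
        have h8 : q * j = q * j' := by
          have : m₀ + q * j = m₀ + q * j' := h
          omega
        exact Nat.eq_of_mul_eq_mul_left (by omega) h8
      · intro m hmS
        obtain ⟨j, hj⟩ := hkey m hmS
        obtain ⟨c1, c2, c3, c4, c5, c6, c7, c8⟩ := (hmem m).1 hmS
        refine ⟨j, Finset.mem_range.2 ((hJj j).2 (by omega)), hj.symm⟩
      · intro j _
        have e1 : m₀ + q * j - s = m₀ - s + q * j := by omega
        have e2 : m₀ + q * j - s' = m₀ - s' + q * j := by omega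
        rw [e1, e2]
  · rw [Finset.not_nonempty_iff_eq_empty] at hne
    refine ⟨max s s', 0, by omega, by omega, by omega, by omega, ?_⟩
    rw [hne]
    simp

end Pool.Agent.Lib.MP_3e612f_nt.NF
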