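import Pool.Agent.Lib.MP_3e612f_nt.NF.C.Split

/-! Major frequencies, global (paper, FC). -/

set_option autoImplicit false

namespace Pool.Agent.Lib.MP_3e612f_nt.NF

open Finset
open Pool.Agent.Lib.MP_3e612f_nt.MR (mu ex)

theorem Maj_norm_mu (m : ℕ) : ‖(mu m : ℂ)‖ ≤ 1 := by
  rw [Complex.norm_real, Real.norm_eq_abs, mu]
  have h : |ArithmeticFunction.moebius m| ≤ 1 := ArithmeticFunction.abs_moebius_le_one
  have h1 : ((|ArithmeticFunction.moebius m| : ℤ) : ℝ) ≤ 1 := by exact_mod_cast h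
  rw [Int.cast_abs] at h1
  exact h1

open scoped Classical in
/-- `major_split` with `ε/2` (`f = μ(n + ·)`, `R = phs E Q (α n)`; `phs (insert t E) = α t Q_t + phs E`, `t ∉ E`), then `ME E Q` for the moduli `q q'`, `q' ≤ K`, with `ε/2` divided by the number of terms `(q', u', i)`. -/
theorem major_sum (E : Finset ℕ) (t : ℕ) (ht : 2 ≤ t) (hE : ∀ j ∈ E, j + 2 ≤ t) (Q : ℕ → Polynomial ℤ) (hQ : (Q t).natDegree ≤ t) (hM : ME E Q)
    (q : ℕ) (hq : 1 ≤ q) (K : ℕ) (hK : 1 ≤ K) (ε : ℝ) (hε : 0 < ε) : ∃ H₀ : ℕ, ∀ H : ℕ, H₀ ≤ H → ∃ N₀ : ℕ, ∀ N : ℕ, N₀ ≤ N →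
      ∀ (α : ℕ → ℕ → ℝ) (x y u : ℕ → ℕ), (∀ n, y n ≤ H + 1) →
        ∑ n ∈ (range N).filter (fun n => Major K H t (α n t)),
          ‖∑ h ∈ win q (x n) (y n) (u n), (mu (n + h) : ℂ) * ex (phs (insert t E) Q (α n) h)‖ ≤ ε * H * N := by
  have htE : t ∉ E := fun h => by
    have := hE t h
    omega
  obtain ⟨I, hI, H₁, h1⟩ := major_split t (by omega) (Q t) hQ q hq K hK (ε / 2) (half_pos hε)
  have hT : (0 : ℝ) < (K : ℝ) * (q * K) * I := by
    have a1 : (0 : ℝ) < K := by exact_mod_cast hK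
    have a2 : (0 : ℝ) < q := by exact_mod_cast hq
    have a3 : (0 : ℝ) < I := by exact_mod_cast hI
    positivity
  have hε' : 0 < ε / (2 * ((K : ℝ) * (q * K) * I)) := by positivity
  have hME : ∀ q' : ℕ, ∃ H₂ : ℕ, q' ∈ Icc 1 K → ∀ H : ℕ, H₂ ≤ H → ∃ N₀ : ℕ, ∀ N : ℕ, N₀ ≤ N →
      ∀ (α : ℕ → ℕ → ℝ) (x y u : ℕ → ℕ), (∀ n, y n ≤ H + 1) →
        ∑ n ∈ range N, ‖∑ h ∈ win (q * q') (x n) (y n) (u n),
          (mu (n + h) : ℂ) * ex (phs E Q (α n) h)‖ ≤
            ε / (2 * ((K : ℝ) * (q * K) * I)) * H * N := by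
    intro q'
    by_cases hq' : q' ∈ Icc 1 K
    · obtain ⟨H₂, h2⟩ := hM (q * q') (Nat.mul_pos hq (mem_Icc.1 hq').1) _ hε'
      exact ⟨H₂, fun _ => h2⟩
    · exact ⟨0, fun h => absurd h hq'⟩
  choose H₂ h2 using hME
  refine ⟨max H₁ ((Icc 1 K).sup H₂), fun H hH => ?_⟩
  have hN2 : ∀ q' : ℕ, ∃ N₀ : ℕ, q' ∈ Icc 1 K → ∀ N : ℕ, N₀ ≤ N →
      ∀ (α : ℕ → ℕ → ℝ) (x y u : ℕ → ℕ), (∀ n, y n ≤ H + 1) →
        ∑ n ∈ range N, ‖∑ h ∈ win (q * q') (x n) (y n) (u n),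
          (mu (n + h) : ℂ) * ex (phs E Q (α n) h)‖ ≤
            ε / (2 * ((K : ℝ) * (q * K) * I)) * H * N := by
    intro q'
    by_cases hq' : q' ∈ Icc 1 K
    · obtain ⟨N₀, h3⟩ := h2 q' hq' H
        ((Finset.le_sup hq').trans ((le_max_right _ _).trans hH))
      exact ⟨N₀, fun _ => h3⟩
    · exact ⟨0, fun h => absurd h hq'⟩
  choose N₂ h3 using hN2
  refine ⟨(Icc 1 K).sup N₂, fun N hN α x y u hy => ?_⟩
  -- the terms
  have hterm : ∀ n ∈ (range N).filter (fun n => Major K H t (α n t)),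
      ‖∑ h ∈ win q (x n) (y n) (u n), (mu (n + h) : ℂ) * ex (phs (insert t E) Q (α n) h)‖ ≤
        ε / 2 * H + ∑ q' ∈ Icc 1 K, ∑ u' ∈ range (q * q'), ∑ i ∈ range I,
          ‖∑ h ∈ win (q * q') (max (x n) (i * (H / I + 1))) (min (y n) ((i + 1) * (H / I + 1))) u',
            (mu (n + h) : ℂ) * ex (phs E Q (α n) h)‖ := by
    intro n hn
    have hmaj := (mem_filter.1 hn).2
    have h4 := h1 H ((le_max_left _ _).trans hH) (fun h => (mu (n + h) : ℂ))
      (fun m => Maj_norm_mu _) (α n t) hmaj (phs E Q (α n)) (x n) (y n) (u n) (hy n)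
    have h5 : ∀ h, phs (insert t E) Q (α n) h =
        α n t * (((Q t).eval (h : ℤ) : ℤ) : ℝ) + phs E Q (α n) h := by
      intro h
      unfold phs
      rw [sum_insert htE]
    simp only [h5]
    exact h4
  have hsum : ∑ n ∈ range N, ∑ q' ∈ Icc 1 K, ∑ u' ∈ range (q * q'), ∑ i ∈ range I,
      ‖∑ h ∈ win (q * q') (max (x n) (i * (H / I + 1))) (min (y n) ((i + 1) * (H / I + 1))) u',
        (mu (n + h) : ℂ) * ex (phs E Q (α n) h)‖ ≤ ε / 2 * H * N := by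
    rw [sum_comm]
    have h6 : ∀ q' ∈ Icc 1 K, ∑ n ∈ range N, ∑ u' ∈ range (q * q'), ∑ i ∈ range I,
        ‖∑ h ∈ win (q * q') (max (x n) (i * (H / I + 1))) (min (y n) ((i + 1) * (H / I + 1))) u',
          (mu (n + h) : ℂ) * ex (phs E Q (α n) h)‖ ≤
        ((q : ℝ) * K) * (I * (ε / (2 * ((K : ℝ) * (q * K) * I)) * H * N)) := by
      intro q' hq'
      rw [sum_comm]
      have h7 : ∀ u' ∈ range (q * q'), ∑ n ∈ range N, ∑ i ∈ range I,
          ‖∑ h ∈ win (q * q') (max (x n) (i * (H / I + 1))) (min (y n) ((i + 1) * (H / I + 1))) u',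
            (mu (n + h) : ℂ) * ex (phs E Q (α n) h)‖ ≤
          I * (ε / (2 * ((K : ℝ) * (q * K) * I)) * H * N) := by
        intro u' _
        rw [sum_comm]
        refine (sum_le_card_nsmul _ _ (ε / (2 * ((K : ℝ) * (q * K) * I)) * H * N) fun i _ => ?_).trans
          (le_of_eq ?_)
        · exact h3 q' hq' N ((Finset.le_sup hq').trans hN) α
            (fun n => max (x n) (i * (H / I + 1))) (fun n => min (y n) ((i + 1) * (H / I + 1)))
            (fun _ => u') (fun n => (min_le_left _ _).trans (hy n))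
        · rw [card_range, nsmul_eq_mul]
      refine (sum_le_card_nsmul _ _ _ h7).trans ?_
      rw [card_range, nsmul_eq_mul]
      have h8 : ((q * q' : ℕ) : ℝ) ≤ (q : ℝ) * K := by
        exact_mod_cast Nat.mul_le_mul_left q (mem_Icc.1 hq').2
      exact mul_le_mul_of_nonneg_right h8 (by positivity)
    refine (sum_le_card_nsmul _ _ _ h6).trans (le_of_eq ?_)
    rw [Nat.card_Icc, nsmul_eq_mul, Nat.add_sub_cancel]
    have a1 : (K : ℝ) ≠ 0 := by
      have : K ≠ 0 := by omega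
      exact_mod_cast this
    have a2 : (q : ℝ) ≠ 0 := by
      have : q ≠ 0 := by omega
      exact_mod_cast this
    have a3 : (I : ℝ) ≠ 0 := by
      have : I ≠ 0 := by omega
      exact_mod_cast this
    field_simp
  calc _ ≤ ∑ n ∈ (range N).filter (fun n => Major K H t (α n t)),
        (ε / 2 * H + ∑ q' ∈ Icc 1 K, ∑ u' ∈ range (q * q'), ∑ i ∈ range I,
          ‖∑ h ∈ win (q * q') (max (x n) (i * (H / I + 1))) (min (y n) ((i + 1) * (H / I + 1))) u',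
            (mu (n + h) : ℂ) * ex (phs E Q (α n) h)‖) := sum_le_sum hterm
    _ ≤ ∑ n ∈ range N,
        (ε / 2 * H + ∑ q' ∈ Icc 1 K, ∑ u' ∈ range (q * q'), ∑ i ∈ range I,
          ‖∑ h ∈ win (q * q') (max (x n) (i * (H / I + 1))) (min (y n) ((i + 1) * (H / I + 1))) u',
            (mu (n + h) : ℂ) * ex (phs E Q (α n) h)‖) :=
        sum_le_sum_of_subset_of_nonneg (filter_subset _ _) fun n _ _ => by positivity
    _ ≤ N * (ε / 2 * H) + ε / 2 * H * N := by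
        rw [sum_add_distrib, sum_const, card_range, nsmul_eq_mul]
        exact add_le_add le_rfl hsum
    _ = ε * H * N := by ring

end Pool.Agent.Lib.MP_3e612f_nt.NF
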