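import Pool.Agent.Lib.MP_3e612f_nt.NF.C.Defs

/-! Major frequencies: removal of the top term (paper, FC). -/

set_option autoImplicit false

namespace Pool.Agent.Lib.MP_3e612f_nt.NF

open Finset
open Pool.Agent.Lib.MP_3e612f_nt.MR (mu ex)

/-- `|Q(h) - Q(h₀)| ≤ C H^{t-1} |h - h₀|` for `h, h₀ ≤ H`. -/
theorem Split_poly (t : ℕ) (Q : Polynomial ℤ) (hQ : Q.natDegree ≤ t) : ∃ C : ℤ, 0 ≤ C ∧ ∀ H : ℤ, 1 ≤ H → ∀ h h₀ : ℤ, |h| ≤ H → |h₀| ≤ H →
    |Q.eval h - Q.eval h₀| ≤ C * H ^ (t - 1) * |h - h₀| := by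
  refine ⟨∑ i ∈ range (t + 1), |Q.coeff i| * t, Finset.sum_nonneg fun i _ => by positivity, ?_⟩
  intro H hH h h₀ hh hh₀
  have h1 : Q.eval h - Q.eval h₀ = ∑ i ∈ range (t + 1), Q.coeff i * (h ^ i - h₀ ^ i) := by
    rw [Polynomial.eval_eq_sum_range' (Nat.lt_succ_of_le hQ), Polynomial.eval_eq_sum_range' (Nat.lt_succ_of_le hQ), ← Finset.sum_sub_distrib]
    exact Finset.sum_congr rfl fun i _ => by ring
  rw [h1, Finset.sum_mul, Finset.sum_mul]
  refine (Finset.abs_sum_le_sum_abs _ _).trans (Finset.sum_le_sum fun i hi => ?_)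
  rw [Finset.mem_range] at hi
  rw [abs_mul]
  have h2 : |h ^ i - h₀ ^ i| ≤ |h - h₀| * i * max |h| |h₀| ^ (i - 1) := abs_pow_sub_pow_le h h₀ i
  have h3 : max |h| |h₀| ^ (i - 1) ≤ H ^ (t - 1) := by
    calc max |h| |h₀| ^ (i - 1) ≤ H ^ (i - 1) := pow_le_pow_left₀ (le_max_of_le_left (abs_nonneg _)) (max_le hh hh₀) _
      _ ≤ H ^ (t - 1) := pow_le_pow_right₀ hH (by omega)
  have h4 : (i : ℤ) ≤ t := by exact_mod_cast (by omega : i ≤ t)
  have h5 : |h ^ i - h₀ ^ i| ≤ |h - h₀| * t * H ^ (t - 1) := by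
    refine h2.trans ?_
    have h6 : (0 : ℤ) ≤ max |h| |h₀| ^ (i - 1) := pow_nonneg (le_max_of_le_left (abs_nonneg _)) _
    exact mul_le_mul (mul_le_mul_of_nonneg_left h4 (abs_nonneg _)) h3 h6 (by positivity)
  calc |Q.coeff i| * |h ^ i - h₀ ^ i| ≤ |Q.coeff i| * (|h - h₀| * t * H ^ (t - 1)) := mul_le_mul_of_nonneg_left h5 (abs_nonneg _)
    _ = |Q.coeff i| * t * H ^ (t - 1) * |h - h₀| := by ring

/-- The phases on a fiber. -/
theorem Split_phase (t : ℕ) (ht : 1 ≤ t) (Q : Polynomial ℤ) (C : ℤ) (hC0 : 0 ≤ C) (hC : ∀ H : ℤ, 1 ≤ H → ∀ h h₀ : ℤ, |h| ≤ H → |h₀| ≤ H →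
    |Q.eval h - Q.eval h₀| ≤ C * H ^ (t - 1) * |h - h₀|) (K H q : ℕ) (hH : 1 ≤ H) (hq : 1 ≤ q) (a : ℝ) (ha : dZ (q * a) ≤ K / (H : ℝ) ^ t)
    (h h₀ L : ℕ) (hh : h ≤ H) (hh₀ : h₀ ≤ H) (hmod : h ≡ h₀ [MOD q]) (hL : |(h : ℤ) - h₀| ≤ L) :
    ‖ex (a * ((Q.eval (h : ℤ) : ℤ) : ℝ)) - ex (a * ((Q.eval (h₀ : ℤ) : ℤ) : ℝ))‖ ≤ 7 * (C * K * L / H) := by
  refine (norm_ex_sub_ex_le' _ _).trans ?_
  have hd : (q : ℤ) ∣ Q.eval (h : ℤ) - Q.eval (h₀ : ℤ) := by
    have h1 : (h : ℤ) - h₀ ∣ Q.eval (h : ℤ) - Q.eval (h₀ : ℤ) := Polynomial.sub_dvd_eval_sub _ _ _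
    have h2 : (q : ℤ) ∣ (h : ℤ) - h₀ := by
      have h3 := (Nat.modEq_iff_dvd.1 hmod.symm)
      exact h3
    exact h2.trans h1
  obtain ⟨w, hw⟩ := hd
  have hw2 : a * ((Q.eval (h : ℤ) : ℤ) : ℝ) - a * ((Q.eval (h₀ : ℤ) : ℤ) : ℝ) = (w : ℤ) * (q * a) := by
    have h1 : ((Q.eval (h : ℤ) : ℤ) : ℝ) - ((Q.eval (h₀ : ℤ) : ℤ) : ℝ) = (q : ℝ) * (w : ℤ) := by exact_mod_cast hw
    rw [← mul_sub, h1]
    ring
  rw [hw2]
  have hw3 : |w| ≤ C * (H : ℤ) ^ (t - 1) * L := by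
    have h1 : |w| ≤ |Q.eval (h : ℤ) - Q.eval (h₀ : ℤ)| := by
      rw [hw, abs_mul]
      have h2 : (1 : ℤ) ≤ |(q : ℤ)| := by
        rw [abs_of_nonneg (by positivity)]
        exact_mod_cast hq
      nlinarith [abs_nonneg w]
    refine h1.trans ((hC H (by exact_mod_cast hH) h h₀ ?_ ?_).trans ?_)
    · rw [abs_of_nonneg (by positivity)]
      exact_mod_cast hh
    · rw [abs_of_nonneg (by positivity)]
      exact_mod_cast hh₀
    · exact mul_le_mul_of_nonneg_left hL (by positivity)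
  have hw4 : |(w : ℝ)| ≤ C * (H : ℝ) ^ (t - 1) * L := by
    have : ((|w| : ℤ) : ℝ) ≤ ((C * (H : ℤ) ^ (t - 1) * L : ℤ) : ℝ) := by exact_mod_cast hw3
    push_cast at this
    exact this
  have hH0 : (0 : ℝ) < H := by exact_mod_cast hH
  have h5 : dZ ((w : ℤ) * (q * a)) ≤ C * (H : ℝ) ^ (t - 1) * L * (K / (H : ℝ) ^ t) := by
    refine (dZ_int_mul_le _ _).trans ?_
    exact mul_le_mul hw4 ha (dZ_nonneg _) ((abs_nonneg _).trans hw4)
  have h6 : (C : ℝ) * (H : ℝ) ^ (t - 1) * L * (K / (H : ℝ) ^ t) = C * K * L / H := by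
    obtain ⟨s, rfl⟩ : ∃ s, t = s + 1 := ⟨t - 1, by omega⟩
    rw [Nat.add_sub_cancel, pow_succ]
    field_simp
  rw [h6] at h5
  linarith

/-- Let `q' ≤ K`, `dZ (q' a) ≤ K/H^t`: `a = b/q' + θ`, `|θ| ≤ K/(q' H^t)`. `I = I(ε, K, t, Q_t)` pieces `[iL, (i+1)L)`, `L = H/I + 1`. On a piece and a class `h ≡ u' (q q')` the phase `a Q_t(h)` is constant modulo 1 up to `|θ| |Q_t(h) - Q_t(h')| ≤ C K/I` (`Q_t(h) ≡ Q_t(h')` modulo `q'`; `|Q_t(h) - Q_t(h')| ≤ C H^{t-1} |h - h'|`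
for `h, h' ≤ H + 1`). So the sum over the piece and class is, up to `(ε/2)`·(number of its elements), a unimodular constant times the sum without the factor. Sum over the pieces and over the classes `u' < q q'` with `u' ≡ u (q)`; the intersection of `[x,y)` with the piece is `[max x (iL), min y ((i+1)L))`. -/
theorem major_split (t : ℕ) (ht : 1 ≤ t) (Qt : Polynomial ℤ) (hQ : Qt.natDegree ≤ t) (q : ℕ) (hq : 1 ≤ q) (K : ℕ) (hK : 1 ≤ K) (ε : ℝ) (hε : 0 < ε) :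
    ∃ I : ℕ, 1 ≤ I ∧ ∃ H₀ : ℕ, ∀ H : ℕ, H₀ ≤ H → ∀ (f : ℕ → ℂ), (∀ m, ‖f m‖ ≤ 1) → ∀ (a : ℝ), Major K H t a → ∀ (R : ℕ → ℝ) (x y u : ℕ), y ≤ H + 1 →
      ‖∑ h ∈ win q x y u, f h * ex (a * ((Qt.eval (h : ℤ) : ℤ) : ℝ) + R h)‖ ≤ ε * H +
        ∑ q' ∈ Icc 1 K, ∑ u' ∈ range (q * q'), ∑ i ∈ range I,
          ‖∑ h ∈ win (q * q') (max x (i * (H / I + 1))) (min y ((i + 1) * (H / I + 1))) u', f h * ex (R h)‖ := by
  obtain ⟨C, hC0, hC⟩ := Split_poly t Qt hQ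
  obtain ⟨I, hI⟩ := exists_nat_ge (28 * C * K / ε + 1)
  have hCK : (0 : ℝ) ≤ 28 * C * K / ε := by
    have : (0 : ℝ) ≤ C := by exact_mod_cast hC0
    positivity
  have hI1' : (1 : ℝ) ≤ I := by linarith
  have hI1 : 1 ≤ I := by exact_mod_cast hI1'
  refine ⟨I, hI1, I, ?_⟩
  rintro H hH f hf a ⟨q₀, hq1, hqK, ha⟩ R x y u hy
  have hH1 : 1 ≤ H := hI1.trans hH
  have hH0 : (0 : ℝ) < H := by exact_mod_cast hH1
  set L := H / I + 1 with hL
  have hL1 : 1 ≤ L := Nat.le_add_left 1 _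
  have hHI : H + 1 ≤ I * L := Nat.lt_mul_div_succ H (by omega)
  have hLH : (L : ℝ) * I ≤ 2 * H := by
    have h1 : H / I * I ≤ H := Nat.div_mul_le_self H I
    have h2 : L * I ≤ 2 * H := by
      rw [hL, Nat.add_mul, one_mul]
      omega
    exact_mod_cast h2
  have hqq : 0 < q * q₀ := Nat.mul_pos hq hq1
  have herr : 7 * (C * K * L / (H : ℝ)) ≤ ε / 2 := by
    have h1 : (C : ℝ) * K * L / H ≤ C * K * (2 / I) := by
      rw [mul_div_assoc]
      refine mul_le_mul_of_nonneg_left ?_ ?_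
      · rw [div_le_div_iff₀ hH0 (by linarith)]
        exact hLH
      · have : (0 : ℝ) ≤ C := by exact_mod_cast hC0
        positivity
    have h2 : 28 * C * K / ε ≤ I := by linarith
    rw [div_le_iff₀ hε] at h2
    have h3 : (C : ℝ) * K * (2 / I) * 14 ≤ ε := by
      have h4 : (C : ℝ) * K * (2 / I) * 14 = 28 * C * K / I := by ring
      rw [h4, div_le_iff₀ (by linarith)]
      linarith
    linarith
  -- the fibers
  have hmaps : ∀ h ∈ win q x y u, (h % (q * q₀), h / L) ∈ range (q * q₀) ×ˢ range I := by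
    intro h hh
    rw [win, Finset.mem_filter, Finset.mem_Ico] at hh
    rw [Finset.mem_product, Finset.mem_range, Finset.mem_range]
    refine ⟨Nat.mod_lt _ hqq, ?_⟩
    rw [Nat.div_lt_iff_lt_mul (by omega)]
    show h < I * L
    omega
  have hfib : ∀ p ∈ range (q * q₀) ×ˢ range I,
      ‖∑ h ∈ (win q x y u).filter (fun h => (h % (q * q₀), h / L) = p), f h * ex (a * ((Qt.eval (h : ℤ) : ℤ) : ℝ) + R h)‖ ≤
      ε / 2 * ((win q x y u).filter (fun h => (h % (q * q₀), h / L) = p)).card +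
      ‖∑ h ∈ win (q * q₀) (max x (p.2 * L)) (min y ((p.2 + 1) * L)) p.1, f h * ex (R h)‖ := by
    rintro ⟨u', i⟩ hp
    rw [Finset.mem_product, Finset.mem_range, Finset.mem_range] at hp
    obtain ⟨hu', hi⟩ := hp
    simp only at hu' hi ⊢
    rcases ((win q x y u).filter (fun h => (h % (q * q₀), h / L) = (u', i))).eq_empty_or_nonempty with he | ⟨h₀, hh₀⟩
    · rw [he, Finset.sum_empty, norm_zero, Finset.card_empty]
      simp only [Nat.cast_zero, mul_zero, zero_add]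
      exact norm_nonneg _
    · have hset : (win q x y u).filter (fun h => (h % (q * q₀), h / L) = (u', i)) = win (q * q₀) (max x (i * L)) (min y ((i + 1) * L)) u' := by
        rw [Finset.mem_filter, win, Finset.mem_filter, Finset.mem_Ico, Prod.mk.injEq] at hh₀
        obtain ⟨⟨⟨_, _⟩, h3⟩, h4, h5⟩ := hh₀
        have h6 : u' % q = u % q := by
          rw [← h4, Nat.mod_mul_right_mod, h3]
        ext h
        simp only [win, Finset.mem_filter, Finset.mem_Ico, Prod.mk.injEq, Nat.mod_eq_of_lt hu', max_le_iff, lt_min_iff]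
        constructor
        · rintro ⟨⟨⟨h7, h8⟩, h9⟩, h10, h11⟩
          refine ⟨⟨⟨h7, ?_⟩, h8, ?_⟩, h10⟩
          · rw [← h11]
            exact Nat.div_mul_le_self _ _
          · rw [← h11]
            rw [mul_comm]
            exact Nat.lt_mul_div_succ h hL1
        · rintro ⟨⟨⟨h7, h8⟩, h9, h10⟩, h11⟩
          refine ⟨⟨⟨h7, h9⟩, ?_⟩, h11, ?_⟩
          · rw [← h6, ← h11, Nat.mod_mul_right_mod]
          · exact Nat.div_eq_of_lt_le h8 h10
      rw [hset]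
      have hbd : ∀ h ∈ win (q * q₀) (max x (i * L)) (min y ((i + 1) * L)) u',
          ‖ex (a * ((Qt.eval (h : ℤ) : ℤ) : ℝ)) - ex (a * ((Qt.eval (h₀ : ℤ) : ℤ) : ℝ))‖ ≤ ε / 2 := by
        intro h hh
        rw [hset] at hh₀
        rw [win, Finset.mem_filter, Finset.mem_Ico, max_le_iff, lt_min_iff] at hh hh₀
        obtain ⟨⟨⟨h1, h2⟩, h3, h4⟩, h5⟩ := hh
        obtain ⟨⟨⟨k1, k2⟩, k3, k4⟩, k5⟩ := hh₀
        have h6 : h ≤ H := by omega
        have k6 : h₀ ≤ H := by omega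
        refine (Split_phase t ht Qt C hC0 hC K H q₀ hH1 hq1 a ha h h₀ L h6 k6 ?_ ?_).trans herr
        · have h7 : h ≡ h₀ [MOD q * q₀] := h5.trans k5.symm
          exact h7.of_mul_left q
        · rw [Nat.add_mul, one_mul] at h4 k4
          rw [abs_le]
          constructor
          · have : (h₀ : ℤ) ≤ h + L := by exact_mod_cast (by omega : h₀ ≤ h + L)
            linarith
          · have : (h : ℤ) ≤ h₀ + L := by exact_mod_cast (by omega : h ≤ h₀ + L)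
            linarith
      have hdec : ∑ h ∈ win (q * q₀) (max x (i * L)) (min y ((i + 1) * L)) u', f h * ex (a * ((Qt.eval (h : ℤ) : ℤ) : ℝ) + R h) =
          ∑ h ∈ win (q * q₀) (max x (i * L)) (min y ((i + 1) * L)) u', f h * ex (R h) *
            (ex (a * ((Qt.eval (h : ℤ) : ℤ) : ℝ)) - ex (a * ((Qt.eval (h₀ : ℤ) : ℤ) : ℝ))) +
          ex (a * ((Qt.eval (h₀ : ℤ) : ℤ) : ℝ)) * ∑ h ∈ win (q * q₀) (max x (i * L)) (min y ((i + 1) * L)) u', f h * ex (R h) := by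
        rw [Finset.mul_sum, ← Finset.sum_add_distrib]
        refine Finset.sum_congr rfl fun h _ => ?_
        rw [ex_add]
        ring
      rw [hdec]
      refine (norm_add_le _ _).trans (add_le_add ?_ ?_)
      · refine (norm_sum_le _ _).trans ?_
        rw [mul_comm (ε / 2), ← nsmul_eq_mul]
        refine Finset.sum_le_card_nsmul _ _ _ fun h hh => ?_
        rw [norm_mul, norm_mul, norm_ex, mul_one]
        calc ‖f h‖ * ‖ex (a * ((Qt.eval (h : ℤ) : ℤ) : ℝ)) - ex (a * ((Qt.eval (h₀ : ℤ) : ℤ) : ℝ))‖ ≤ 1 * (ε / 2) :=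
              mul_le_mul (hf h) (hbd h hh) (norm_nonneg _) zero_le_one
          _ = ε / 2 := one_mul _
      · rw [norm_mul, norm_ex, one_mul]
  rw [← Finset.sum_fiberwise_of_maps_to hmaps]
  refine (norm_sum_le _ _).trans ((Finset.sum_le_sum hfib).trans ?_)
  rw [Finset.sum_add_distrib, ← Finset.mul_sum]
  refine add_le_add ?_ ?_
  · have h1 : ∑ p ∈ range (q * q₀) ×ˢ range I, (((win q x y u).filter (fun h => (h % (q * q₀), h / L) = p)).card : ℝ) = (win q x y u).card := by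
      rw [Finset.card_eq_sum_card_fiberwise hmaps]
      push_cast
      rfl
    rw [h1]
    have h2 : (win q x y u).card ≤ 2 * H := by
      refine (Finset.card_filter_le _ _).trans ?_
      rw [Nat.card_Ico]
      omega
    have h3 : ((win q x y u).card : ℝ) ≤ 2 * H := by exact_mod_cast h2
    nlinarith
  · rw [Finset.sum_product]
    have h1 : q₀ ∈ Icc 1 K := Finset.mem_Icc.2 ⟨hq1, hqK⟩
    exact Finset.single_le_sum (f := fun q' => ∑ u' ∈ range (q * q'), ∑ i ∈ range I,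
      ‖∑ h ∈ win (q * q') (max x (i * L)) (min y ((i + 1) * L)) u', f h * ex (R h)‖)
      (fun q' _ => Finset.sum_nonneg fun _ _ => Finset.sum_nonneg fun _ _ => norm_nonneg _) h1

end Pool.Agent.Lib.MP_3e612f_nt.NF
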